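import Pool.Agent.Helper66.SC.Defs
import Pool.Agent.Helper22.SC.Ops3

/-!
# H4 : splitting of the coding poset
-/

namespace Pool.Agent.Helper50.SC

universe u

open ZFSet
open Pool.Agent.Helper66.SC
open Pool.Agent.Helper22.SC (U URel dom ran mem_dom mem_ran pfst psnd pfst_pair psnd_pair in_zfset
  in_prod gr mem_gr pair_mem_gr mem_omega_iff' omega_eq mem_UU)

/-! ### Closure of models under simple operations -/

abbrev KK : Cls.{u} := fun M A => IsZF M A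

theorem clo1 {N A : Set ZFSet.{u}} (hN : IsZF N A) {F : ZFSet.{u} → ZFSet.{u}}
    (h : U KK.{u} (fun _ _ (a : ZFSet.{u}) => F a)) {x : ZFSet.{u}} (hx : x ∈ N) : F x ∈ N :=
  in_zfset.1 (h.closed hN (a := x) (in_zfset.2 hx))

theorem clo2 {N A : Set ZFSet.{u}} (hN : IsZF N A) {F : ZFSet.{u} × ZFSet.{u} → ZFSet.{u}}
    (h : U KK.{u} (fun _ _ (a : ZFSet.{u} × ZFSet.{u}) => F a)) {x y : ZFSet.{u}} (hx : x ∈ N)
    (hy : y ∈ N) : F (x, y) ∈ N :=
  in_zfset.1 (h.closed hN (a := (x, y)) (in_prod.2 ⟨in_zfset.2 hx, in_zfset.2 hy⟩))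

/-- the section of `d` at `n` -/
noncomputable def sc (n : ℕ) (d : ZFSet.{u}) : ZFSet.{u} := ran (d.sep (fun z => pfst z = nz n))

theorem sc_u (n : ℕ) : U KK.{u} (fun _ _ (a : ZFSet.{u}) => sc n a) := by
  unfold sc
  apply_rules (transparency := .reducible) (maxDepth := 400) using is_poly

theorem mem_sc {n : ℕ} {d ξ : ZFSet.{u}} : ξ ∈ sc n d ↔ pair (nz n) ξ ∈ d := by
  unfold sc
  rw [mem_ran]
  constructor
  · rintro ⟨x, h⟩
    rw [mem_sep, pfst_pair] at h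
    rw [← h.2]
    exact h.1
  · intro h
    exact ⟨nz n, by rw [mem_sep, pfst_pair]; exact ⟨h, rfl⟩⟩

theorem sc_mem {N A : Set ZFSet.{u}} (hN : IsZF N A) (n : ℕ) {d : ZFSet.{u}} (hd : d ∈ N) :
    sc n d ∈ N := clo1 hN (sc_u n) hd

theorem dom_mem {N A : Set ZFSet.{u}} (hN : IsZF N A) {d : ZFSet.{u}} (hd : d ∈ N) :
    dom d ∈ N := clo1 hN (F := dom)
      (by apply_rules (transparency := .reducible) (maxDepth := 400) using is_poly) hd

theorem prod_mem {N A : Set ZFSet.{u}} (hN : IsZF N A) {x y : ZFSet.{u}} (hx : x ∈ N)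
    (hy : y ∈ N) : x.prod y ∈ N := clo2 hN (F := fun p => p.1.prod p.2)
      (by apply_rules (transparency := .reducible) (maxDepth := 400) using is_poly) hx hy

theorem union_mem {N A : Set ZFSet.{u}} (hN : IsZF N A) {x y : ZFSet.{u}} (hx : x ∈ N)
    (hy : y ∈ N) : x ∪ y ∈ N := clo2 hN (F := fun p => p.1 ∪ p.2)
      (by apply_rules (transparency := .reducible) (maxDepth := 400) using is_poly) hx hy

theorem Pow_mem {N A : Set ZFSet.{u}} (hN : IsZF N A) {x : ZFSet.{u}} (hx : x ∈ N) :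
    Helper66.SC.Pow N x ∈ N := by
  obtain ⟨y, hy, h⟩ := hN.power x hx
  have : Helper66.SC.Pow N x = y := by
    ext z
    rw [mem_Pow, h]
  rw [this]
  exact hy

theorem cardLe_empty {N A : Set ZFSet.{u}} (hN : IsZF N A) {x y : ZFSet.{u}} (hx : ∀ z, z ∉ x) :
    CardLe N x y := by
  refine ⟨∅, hN.empty_mem, ⟨fun z hz => absurd hz (notMem_empty z), fun z hz => absurd hz (hx z)⟩,
    fun z hz => absurd hz (hx z)⟩

variable {M : Set ZFSet.{u}} {L : ℕ → Ordinal.{u}} {r : ZFSet.{u}}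

theorem mem_JJ {d : ZFSet.{u}} : d ∈ JJ M L ↔ d ∈ M ∧ d ⊆ ZFSet.omega.prod (oz (⨆ n, L n)) ∧
    ∀ n, CardLe M (sc n d) (ZZ M L n) := by
  unfold JJ
  rw [mem_sep, mem_Pow, and_assoc]
  refine and_congr_right fun _ => and_congr_right fun h => forall_congr' fun n => ?_
  have : (oz (⨆ n, L n)).sep (fun ξ => pair (nz n) ξ ∈ d) = sc n d := by
    ext ξ
    rw [mem_sep, mem_sc]
    exact ⟨fun h => h.2, fun hh => ⟨(pair_mem_prod.1 (h hh)).2, hh⟩⟩
  rw [this]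

theorem mem_PP {p : ZFSet.{u}} : p ∈ PP M L r ↔ p ∈ M ∧ p ⊆ TT M L r ∧
    (∀ x y z, pair x y ∈ p → pair x z ∈ p → y = z) ∧ dom p ∈ JJ M L := by
  unfold PP FP
  rw [mem_sep, mem_Pow, and_assoc]
  refine and_congr_right fun _ => and_congr_right fun h => and_congr_right fun _ => ?_
  constructor
  · rintro ⟨_, d, hd, h2⟩
    have : dom p = d := by
      ext x
      rw [mem_dom, h2]
    rw [this]
    exact hd
  · intro h2
    refine ⟨fun s hs => ?_, dom p, h2, fun x => mem_dom⟩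
    have := h hs
    unfold TT at this
    rw [mem_sep] at this
    obtain ⟨_, n, ξ, η, _, _, _, rfl⟩ := this
    exact ⟨_, _, rfl⟩

theorem mem_TT {z : ZFSet.{u}} (hz : z ∈ TT M L r) : ∃ (n : ℕ) (ξ η : Ordinal.{u}), nz n ∈ r ∧
    ξ < kap M L n ∧ η < L n ∧ z = pair (pair (nz n) (oz ξ)) (oz η) := by
  unfold TT at hz
  rw [mem_sep] at hz
  exact hz.2

theorem nz_mem {m n : ℕ} : nz.{u} m ∈ nz.{u} n ↔ m < n := by
  rw [Ordinal.toZFSet_mem_toZFSet_iff]
  exact Nat.cast_lt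

theorem nz_inj {m n : ℕ} (h : nz.{u} m = nz.{u} n) : m = n := by
  rcases lt_trichotomy m n with h1 | h1 | h1
  · exact absurd (h ▸ nz_mem.2 h1) (mem_irrefl _)
  · exact h1
  · exact absurd (h ▸ nz_mem.2 h1) (mem_irrefl _)

theorem mem_PPlo {j : ℕ} {p : ZFSet.{u}} : p ∈ PPlo M L r j ↔ p ∈ PP M L r ∧
    ∀ z ∈ p, pfst (pfst z) ∈ nz j := by
  unfold PPlo
  rw [mem_sep]
  refine and_congr_right fun hp => ?_
  have hT := (mem_PP.1 hp).2.1
  constructor
  · intro h z hz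
    obtain ⟨n, ξ, η, _, _, _, rfl⟩ := mem_TT (hT hz)
    rw [pfst_pair, pfst_pair]
    exact nz_mem.2 (h _ _ _ hz)
  · intro h n x y hz
    have := h _ hz
    rw [pfst_pair, pfst_pair] at this
    exact nz_mem.1 this

theorem mem_PPhi {j : ℕ} {p : ZFSet.{u}} : p ∈ PPhi M L r j ↔ p ∈ PP M L r ∧
    ∀ z ∈ p, nz j ∈ pfst (pfst z) := by
  unfold PPhi
  rw [mem_sep]
  refine and_congr_right fun hp => ?_
  have hT := (mem_PP.1 hp).2.1
  constructor
  · intro h z hz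
    obtain ⟨n, ξ, η, _, _, _, rfl⟩ := mem_TT (hT hz)
    rw [pfst_pair, pfst_pair]
    exact nz_mem.2 (h _ _ _ hz)
  · intro h n x y hz
    have := h _ hz
    rw [pfst_pair, pfst_pair] at this
    exact nz_mem.1 this

theorem bta_le (hL : StrictMono L) (hω : Ordinal.omega0 < L 0) (n : ℕ) : bta L n < L n := by
  cases n with
  | zero => exact hω
  | succ n => exact hL (Nat.lt_succ_self n)

theorem bta_ge (hL : StrictMono L) {j n : ℕ} (h : j < n) : L j ≤ bta L n := by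
  cases n with
  | zero => exact absurd h (Nat.not_lt_zero _)
  | succ n => exact hL.monotone (Nat.lt_succ_iff.1 h)

theorem omega_le_bta (hL : StrictMono L) (hω : Ordinal.omega0 < L 0) (n : ℕ) :
    Ordinal.omega0 ≤ bta L n := by
  cases n with
  | zero => exact le_rfl
  | succ n => exact hω.le.trans (hL.monotone (Nat.zero_le n))

/-- a subset, in the model, of a condition is a condition -/
theorem PP_sub (K1 : ST_K1.{u}) (hM : IsZF M ∅) (hZ : ∀ n, ZZ M L n ∈ M) {p q : ZFSet.{u}}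
    (hp : p ∈ PP M L r) (hq : q ∈ M) (h : q ⊆ p) : q ∈ PP M L r := by
  obtain ⟨h1, h2, h3, h4⟩ := mem_PP.1 hp
  obtain ⟨h5, h6, h7⟩ := mem_JJ.1 h4
  have hd : dom q ⊆ dom p := by
    intro x hx
    rw [mem_dom] at hx ⊢
    obtain ⟨y, hy⟩ := hx
    exact ⟨y, h hy⟩
  refine mem_PP.2 ⟨hq, h.trans h2, fun x y z hy hz => h3 x y z (h hy) (h hz),
    mem_JJ.2 ⟨dom_mem hM hq, hd.trans h6, fun n => ?_⟩⟩
  obtain ⟨k1, k2, -⟩ := K1 M ∅ hM
  refine k2 _ (sc_mem hM n (dom_mem hM hq)) _ (sc_mem hM n (dom_mem hM h1)) _ (hZ n)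
    (k1 _ (sc_mem hM n (dom_mem hM hq)) _ (sc_mem hM n (dom_mem hM h1)) ?_) (h7 n)
  intro ξ hξ
  rw [mem_sc] at hξ ⊢
  exact hd hξ


theorem ZZ_mem (hM : IsZF M ∅) (hL : LSeq M L) (n : ℕ) : ZZ M L n ∈ M := by
  unfold ZZ
  refine Pow_mem hM (prod_mem hM hM.omega ?_)
  cases n with
  | zero =>
    have h : oz Ordinal.omega0 = ZFSet.omega := omega_eq.symm
    rw [bta, h]
    exact hM.omega
  | succ n => exact (hL.sl n).1

theorem empty_mem_PP (hM : IsZF M ∅) : ∅ ∈ PP M L r := by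
  have h0 : dom ∅ = (∅ : ZFSet.{u}) := by
    ext x
    rw [mem_dom]
    exact ⟨fun ⟨y, hy⟩ => absurd hy (notMem_empty _), fun h => absurd h (notMem_empty _)⟩
  refine mem_PP.2 ⟨hM.empty_mem, fun z hz => absurd hz (notMem_empty _),
    fun x y z hy => absurd hy (notMem_empty _), ?_⟩
  rw [h0]
  refine mem_JJ.2 ⟨hM.empty_mem, fun z hz => absurd hz (notMem_empty _), fun n => ?_⟩
  refine cardLe_empty hM fun z hz => ?_
  rw [mem_sc] at hz
  exact notMem_empty _ hz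

theorem PPlo_mem (hM : IsZF M ∅) (hP : PP M L r ∈ M) (j : ℕ) : PPlo M L r j ∈ M := by
  have h : PPlo M L r j = (PP M L r).sep (fun p => ∀ z ∈ p, pfst (pfst z) ∈ nz j) := by
    ext p
    rw [mem_PPlo, mem_sep]
  rw [h]
  exact clo1 hM (F := fun P => P.sep (fun p => ∀ z ∈ p, pfst (pfst z) ∈ nz j))
    (by apply_rules (transparency := .reducible) (maxDepth := 400) using is_poly) hP

theorem PPhi_mem (hM : IsZF M ∅) (hP : PP M L r ∈ M) (j : ℕ) : PPhi M L r j ∈ M := by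
  have h : PPhi M L r j = (PP M L r).sep (fun p => ∀ z ∈ p, nz j ∈ pfst (pfst z)) := by
    ext p
    rw [mem_PPhi, mem_sep]
  rw [h]
  exact clo1 hM (F := fun P => P.sep (fun p => ∀ z ∈ p, nz j ∈ pfst (pfst z)))
    (by apply_rules (transparency := .reducible) (maxDepth := 400) using is_poly) hP

theorem split (K1 : ST_K1.{u}) (hM : IsZF M ∅) (hL : LSeq M L) (hP : PP M L r ∈ M) {j : ℕ}
    (hj : nz j ∉ r) : Split M (PP M L r) (PPlo M L r j) (PPhi M L r j) where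
  hP := hP
  hQ := PPlo_mem hM hP j
  hR := PPhi_mem hM hP j
  eQ := mem_PPlo.2 ⟨empty_mem_PP hM, fun z hz => absurd hz (notMem_empty _)⟩
  eR := mem_PPhi.2 ⟨empty_mem_PP hM, fun z hz => absurd hz (notMem_empty _)⟩
  un := by
    intro b hb q hq
    obtain ⟨hb0, hb1⟩ := mem_PPlo.1 hb
    obtain ⟨hq0, hq1⟩ := mem_PPhi.1 hq
    obtain ⟨b1, b2, b3, b4⟩ := mem_PP.1 hb0
    obtain ⟨q1, q2, q3, q4⟩ := mem_PP.1 hq0
    obtain ⟨b5, b6, b7⟩ := mem_JJ.1 b4
    obtain ⟨q5, q6, q7⟩ := mem_JJ.1 q4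
    have hM' : b ∪ q ∈ M := union_mem hM b1 q1
    have hmix : ∀ x y z, pair x y ∈ b → pair x z ∈ q → False := by
      intro x y z h1 h2
      have h3 := hb1 _ h1
      have h4 := hq1 _ h2
      obtain ⟨n, ξ, η, _, _, _, h5⟩ := mem_TT (b2 h1)
      obtain ⟨rfl, rfl⟩ := pair_inj.1 h5
      rw [pfst_pair, pfst_pair] at h3 h4
      exact absurd ((nz_mem.1 h3).trans (nz_mem.1 h4)) (lt_irrefl _)
    refine mem_PP.2 ⟨hM', ?_, ?_, mem_JJ.2 ⟨dom_mem hM hM', ?_, fun n => ?_⟩⟩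
    · intro z hz
      rcases mem_union.1 hz with h | h
      · exact b2 h
      · exact q2 h
    · intro x y z h1 h2
      rcases mem_union.1 h1 with h1 | h1 <;> rcases mem_union.1 h2 with h2 | h2
      · exact b3 x y z h1 h2
      · exact (hmix _ _ _ h1 h2).elim
      · exact (hmix _ _ _ h2 h1).elim
      · exact q3 x y z h1 h2
    · intro x hx
      rw [mem_dom] at hx
      obtain ⟨y, hy⟩ := hx
      rcases mem_union.1 hy with h | h
      · exact b6 (mem_dom.2 ⟨y, h⟩)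
      · exact q6 (mem_dom.2 ⟨y, h⟩)
    · by_cases hn : n < j
      · have : sc n (dom (b ∪ q)) = sc n (dom b) := by
          ext ξ
          rw [mem_sc, mem_sc, mem_dom, mem_dom]
          constructor
          · rintro ⟨y, hy⟩
            rcases mem_union.1 hy with h | h
            · exact ⟨y, h⟩
            · have := hq1 _ h
              rw [pfst_pair, pfst_pair] at this
              exact absurd ((nz_mem.1 this).trans hn) (lt_irrefl _)
          · rintro ⟨y, hy⟩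
            exact ⟨y, mem_union.2 (Or.inl hy)⟩
        rw [this]
        exact b7 n
      · have : sc n (dom (b ∪ q)) = sc n (dom q) := by
          ext ξ
          rw [mem_sc, mem_sc, mem_dom, mem_dom]
          constructor
          · rintro ⟨y, hy⟩
            rcases mem_union.1 hy with h | h
            · have := hb1 _ h
              rw [pfst_pair, pfst_pair] at this
              exact absurd (nz_mem.1 this) hn
            · exact ⟨y, h⟩
          · rintro ⟨y, hy⟩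
            exact ⟨y, mem_union.2 (Or.inr hy)⟩
        rw [this]
        exact q7 n
  dec := by
    intro p hp
    obtain ⟨p1, p2, p3, p4⟩ := mem_PP.1 hp
    have hb : p.sep (fun z => pfst (pfst z) ∈ nz j) ∈ M :=
      clo1 hM (F := fun p => p.sep (fun z => pfst (pfst z) ∈ nz j))
        (by apply_rules (transparency := .reducible) (maxDepth := 400) using is_poly) p1
    have hq : p.sep (fun z => nz j ∈ pfst (pfst z)) ∈ M :=
      clo1 hM (F := fun p => p.sep (fun z => nz j ∈ pfst (pfst z)))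
        (by apply_rules (transparency := .reducible) (maxDepth := 400) using is_poly) p1
    refine ⟨p.sep (fun z => pfst (pfst z) ∈ nz j), mem_PPlo.2
      ⟨PP_sub K1 hM (ZZ_mem hM hL) hp hb fun z hz => (mem_sep.1 hz).1,
        fun z hz => (mem_sep.1 hz).2⟩, p.sep (fun z => nz j ∈ pfst (pfst z)), mem_PPhi.2
      ⟨PP_sub K1 hM (ZZ_mem hM hL) hp hq fun z hz => (mem_sep.1 hz).1,
        fun z hz => (mem_sep.1 hz).2⟩, ?_⟩
    ext z
    rw [mem_union, mem_sep, mem_sep]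
    constructor
    · intro hz
      obtain ⟨n, ξ, η, hn, _, _, rfl⟩ := mem_TT (p2 hz)
      rw [pfst_pair, pfst_pair, nz_mem, nz_mem]
      rcases lt_trichotomy n j with h | h | h
      · exact Or.inl ⟨hz, h⟩
      · exact absurd (h ▸ hn) hj
      · exact Or.inr ⟨hz, h⟩
    · rintro (h | h)
      · exact h.1
      · exact h.1
  cmp := by
    intro b hb b' hb' q hq q' hq' h
    obtain ⟨hb0, hb1⟩ := mem_PPlo.1 hb
    obtain ⟨hq0, hq1⟩ := mem_PPhi.1 hq
    obtain ⟨-, hb1'⟩ := mem_PPlo.1 hb'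
    obtain ⟨-, hq1'⟩ := mem_PPhi.1 hq'
    have hbT := (mem_PP.1 hb0).2.1
    have hqT := (mem_PP.1 hq0).2.1
    have hmix : ∀ z ∈ PP M L r, ∀ w ∈ z, pfst (pfst w) ∈ nz j → nz j ∈ pfst (pfst w) → False := by
      intro z hz w hw h1 h2
      obtain ⟨n, ξ, η, _, _, _, rfl⟩ := mem_TT ((mem_PP.1 hz).2.1 hw)
      rw [pfst_pair, pfst_pair] at h1 h2
      exact absurd ((nz_mem.1 h1).trans (nz_mem.1 h2)) (lt_irrefl _)
    constructor
    · intro z hz
      rcases mem_union.1 (h (mem_union.2 (Or.inl hz))) with h1 | h1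
      · exact h1
      · exact (hmix b hb0 z hz (hb1 z hz) (hq1' z h1)).elim
    · intro z hz
      rcases mem_union.1 (h (mem_union.2 (Or.inr hz))) with h1 | h1
      · exact (hmix q hq0 z hz (hb1' z h1) (hq1 z hz)).elim
      · exact h1


theorem oz_mem {o o' : Ordinal.{u}} : oz o ∈ oz o' ↔ o < o' := Ordinal.toZFSet_mem_toZFSet_iff

theorem oz_sub {o o' : Ordinal.{u}} (h : o ≤ o') : oz o ⊆ oz o' :=
  Ordinal.toZFSet_subset_toZFSet_iff.2 h

theorem ozM_of_lt (hM : IsZF M ∅) {o o' : Ordinal.{u}} (h : o < o') (ho : oz o' ∈ M) : oz o ∈ M :=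
  hM.trans _ ho _ (oz_mem.2 h)

/-- the lower part is small -/
theorem lo_small (K1 : ST_K1.{u}) (hM : IsZF M ∅) (hL : LSeq M L)
    (hk : ∀ n, kap M L n < L n) (hP : PP M L r ∈ M) (j : ℕ) :
    ∃ c < L j, CardLe M (PPlo M L r j) (oz c) := by
  obtain ⟨k1, k2, k3, k4, -⟩ := K1 M ∅ hM
  have hω : Ordinal.omega0 < L 0 := (hL.sl 0).2.1
  set a : Ordinal.{u} := bta L j with ha
  have haj : a < L j := bta_le hL.mono hω j
  have hωa : Ordinal.omega0 ≤ a := omega_le_bta hL.mono hω j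
  have haM : oz a ∈ M := ozM_of_lt hM haj (hL.sl j).1
  obtain ⟨-, -, -, s1, s2, -⟩ := hL.sl j
  have hLM : oz (L j) ∈ M := (hL.sl j).1
  -- first bound
  obtain ⟨c1, hc1, h1⟩ := s2 a haj
  set c : Ordinal.{u} := max c1 a with hc
  have hcj : c < L j := max_lt hc1 haj
  have hcM : oz c ∈ M := ozM_of_lt hM hcj hLM
  have hc1M : oz c1 ∈ M := ozM_of_lt hM hc1 hLM
  obtain ⟨c2, hc2, h2⟩ := s2 c hcj
  have hc2M : oz c2 ∈ M := ozM_of_lt hM hc2 hLM
  obtain ⟨c3, hc3, h3⟩ := s1 c2 hc2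
  have hc3M : oz c3 ∈ M := ozM_of_lt hM hc3 hLM
  refine ⟨c3, hc3, ?_⟩
  have haa : (oz a).prod (oz a) ∈ M := prod_mem hM haM haM
  have haaa : ((oz a).prod (oz a)).prod (oz a) ∈ M := prod_mem hM haa haM
  have h4 : CardLe M (((oz a).prod (oz a)).prod (oz a)) (oz c2) := by
    refine k2 _ haaa _ (prod_mem hM hcM hcM) _ hc2M ?_ h2
    refine k3 _ haa _ haM _ hcM _ hcM ?_ (k1 _ haM _ hcM (oz_sub (le_max_right _ _)))
    exact k2 _ haa _ hc1M _ hcM h1 (k1 _ hc1M _ hcM (oz_sub (le_max_left _ _)))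
  have h5 : CardLe M (Helper66.SC.Pow M (((oz a).prod (oz a)).prod (oz a))) (oz c3) :=
    k2 _ (Pow_mem hM haaa) _ (Pow_mem hM hc2M) _ hc3M (k4 _ haaa _ hc2M h4) h3
  refine k2 _ (PPlo_mem hM hP j) _ (Pow_mem hM haaa) _ hc3M
    (k1 _ (PPlo_mem hM hP j) _ (Pow_mem hM haaa) ?_) h5
  intro p hp
  obtain ⟨hp0, hp1⟩ := mem_PPlo.1 hp
  obtain ⟨p1, p2, p3, p4⟩ := mem_PP.1 hp0
  refine mem_Pow.2 ⟨p1, fun z hz => ?_⟩
  obtain ⟨n, ξ, η, hn, hξ, hη, rfl⟩ := mem_TT (p2 hz)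
  have hnj := hp1 _ hz
  rw [pfst_pair, pfst_pair, nz_mem] at hnj
  have hna : L n ≤ a := bta_ge hL.mono hnj
  refine pair_mem_prod.2 ⟨pair_mem_prod.2 ⟨?_, ?_⟩, ?_⟩
  · exact oz_mem.2 ((Ordinal.natCast_lt_omega0 n).trans_le hωa)
  · exact oz_mem.2 ((hξ.trans (hk n)).trans_le hna)
  · exact oz_mem.2 (hη.trans_le hna)

/-! ### Chain closure -/

/-- the code of a pair `(ξ, X)` as a subset of `ω × β` -/
noncomputable def cd (z : ZFSet.{u}) : ZFSet.{u} :=
  insert (pair ∅ (pfst z)) (img (psnd z) (fun w => pair (insert (pfst w) (pfst w)) (psnd w)))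

theorem cd_u : U KK.{u} (fun _ _ (a : ZFSet.{u}) => cd a) := by
  unfold cd
  apply_rules (transparency := .reducible) (maxDepth := 400) using is_poly

theorem insert_self_inj {x y : ZFSet.{u}} (h : (insert x x : ZFSet.{u}) = insert y y) : x = y := by
  have h1 : x ∈ (insert y y : ZFSet.{u}) := h ▸ mem_insert x x
  have h2 : y ∈ (insert x x : ZFSet.{u}) := h ▸ mem_insert y y
  rcases mem_insert_iff.1 h1 with h1 | h1
  · exact h1
  · rcases mem_insert_iff.1 h2 with h2 | h2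
    · exact h2.symm
    · exact absurd (And.intro h1 h2) (fun h => mem_asymm h.1 h.2)

theorem mem_cd {ξ X w : ZFSet.{u}} : w ∈ cd (pair ξ X) ↔ w = pair ∅ ξ ∨
    ∃ v ∈ X, pair (insert (pfst v) (pfst v)) (psnd v) = w := by
  unfold cd
  rw [mem_insert_iff, pfst_pair, psnd_pair, mem_img]

theorem cd_inj {Y β : ZFSet.{u}} {ξ X ξ' X' : ZFSet.{u}} (hX : X ⊆ Y.prod β) (hX' : X' ⊆ Y.prod β)
    (h : cd (pair ξ X) = cd (pair ξ' X')) : pair ξ X = pair ξ' X' := by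
  have hne : ∀ (ξ ξ' X : ZFSet.{u}), pair ∅ ξ ∈ cd (pair ξ' X) → ξ = ξ' := by
    intro ξ ξ' X h
    rcases mem_cd.1 h with h | ⟨v, hv, h⟩
    · exact (pair_inj.1 h).2
    · have := (pair_inj.1 h).1
      exact absurd (this ▸ mem_insert (pfst v) (pfst v)) (notMem_empty _)
  have hξ : ξ = ξ' := hne ξ ξ' X' (h ▸ mem_cd.2 (Or.inl rfl))
  subst hξ
  have hsub : ∀ X X' : ZFSet.{u}, X ⊆ Y.prod β → X' ⊆ Y.prod β → cd (pair ξ X) = cd (pair ξ X') →
      X ⊆ X' := by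
    intro X X' hX hX' h v hv
    have h1 : pair (insert (pfst v) (pfst v)) (psnd v) ∈ cd (pair ξ X') :=
      h ▸ mem_cd.2 (Or.inr ⟨v, hv, rfl⟩)
    rcases mem_cd.1 h1 with h2 | ⟨v', hv', h2⟩
    · exact absurd ((pair_inj.1 h2).1 ▸ mem_insert (pfst v) (pfst v)) (notMem_empty _)
    · obtain ⟨e1, e2⟩ := pair_inj.1 h2
      have e3 := insert_self_inj e1
      obtain ⟨x, _, y, _, rfl⟩ := mem_prod.1 (hX hv)
      obtain ⟨x', _, y', _, rfl⟩ := mem_prod.1 (hX' hv')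
      rw [pfst_pair, pfst_pair] at e3
      rw [psnd_pair, psnd_pair] at e2
      rw [← e3, ← e2]
      exact hv'
  have : X = X' := subset_antisymm (hsub X X' hX hX' h) (hsub X' X hX' hX h.symm)
  rw [this]

/-- `θ × P(ω × β)` injects into `P(ω × β)` for `θ ≤ β` -/
theorem absorb (hM : IsZF M ∅) {θ β : Ordinal.{u}} (hθ : θ ≤ β) (hβ : oz β ∈ M)
    (hθM : oz θ ∈ M) :
    CardLe M ((oz θ).prod (Helper66.SC.Pow M (ZFSet.omega.prod (oz β))))
      (Helper66.SC.Pow M (ZFSet.omega.prod (oz β))) := by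
  set Z := Helper66.SC.Pow M (ZFSet.omega.prod (oz β)) with hZ
  have hZM : Z ∈ M := Pow_mem hM (prod_mem hM hM.omega hβ)
  have hDM : (oz θ).prod Z ∈ M := prod_mem hM hθM hZM
  refine ⟨gr ((oz θ).prod Z) cd, ?_, ?_, ?_⟩
  · have hu : U KK.{u} (fun _ _ (a : ZFSet.{u}) => gr a cd) := by
      refine U.gr U.id ?_
      exact cd_u.comp U.id.snd
    exact clo1 hM (F := fun a => gr a cd) hu hDM
  · constructor
    · intro z hz
      obtain ⟨y, hy, rfl⟩ := mem_gr.1 hz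
      refine pair_mem_prod.2 ⟨hy, ?_⟩
      obtain ⟨ξ, hξ, X, hX, rfl⟩ := mem_prod.1 hy
      have hXM := mem_Pow.1 hX
      refine mem_Pow.2 ⟨clo1 hM cd_u (hM.trans _ hDM _ hy), fun w hw => ?_⟩
      rcases mem_cd.1 hw with rfl | ⟨v, hv, rfl⟩
      · refine pair_mem_prod.2 ⟨omega_zero, oz_sub hθ hξ⟩
      · obtain ⟨x, hx, y, hy, rfl⟩ := mem_prod.1 (hXM.2 hv)
        rw [pfst_pair, psnd_pair]
        exact pair_mem_prod.2 ⟨omega_succ hx, hy⟩
    · intro z hz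
      exact ⟨cd z, pair_mem_gr.2 ⟨hz, rfl⟩, fun y hy => (pair_mem_gr.1 hy).2⟩
  · intro y hy y' hy' z h1 h2
    obtain ⟨_, e1⟩ := pair_mem_gr.1 h1
    obtain ⟨_, e2⟩ := pair_mem_gr.1 h2
    obtain ⟨ξ, hξ, X, hX, rfl⟩ := mem_prod.1 hy
    obtain ⟨ξ', hξ', X', hX', rfl⟩ := mem_prod.1 hy'
    exact cd_inj (mem_Pow.1 hX).2 (mem_Pow.1 hX').2 (e1.symm.trans e2)


theorem chain_closed (K1 : ST_K1.{u}) (K2 : ST_K2.{u}) (K4 : ST_K4.{u}) (hM : IsZF M ∅)
    (hW : WO M) (hL : LSeq M L) {j : ℕ} {θ : Ordinal.{u}} (hθ : θ < L j) :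
    ChainClosed M (PPhi M L r j) (oz θ) := by
  intro c hcM hc hch hcard hne
  obtain ⟨k1, k2, k3, k4, -⟩ := K1 M ∅ hM
  have hθM : oz θ ∈ M := ozM_of_lt hM hθ (hL.sl j).1
  have hUM : (⋃₀ c : ZFSet.{u}) ∈ M := hM.sUnion _ hcM
  have hcP : ∀ p ∈ c, p ∈ PP M L r := fun p hp => (mem_PPhi.1 (hc hp)).1
  refine mem_PPhi.2 ⟨mem_PP.2 ⟨hUM, ?_, ?_, mem_JJ.2 ⟨dom_mem hM hUM, ?_, fun n => ?_⟩⟩, ?_⟩
  · intro z hz
    obtain ⟨p, hp, hz⟩ := mem_sUnion.1 hz
    exact (mem_PP.1 (hcP p hp)).2.1 hz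
  · intro x y z hy hz
    obtain ⟨p, hp, hy⟩ := mem_sUnion.1 hy
    obtain ⟨q, hq, hz⟩ := mem_sUnion.1 hz
    rcases hch p hp q hq with h | h
    · exact (mem_PP.1 (hcP q hq)).2.2.1 x y z (h hy) hz
    · exact (mem_PP.1 (hcP p hp)).2.2.1 x y z hy (h hz)
  · intro x hx
    rw [mem_dom] at hx
    obtain ⟨y, hy⟩ := hx
    obtain ⟨p, hp, hy⟩ := mem_sUnion.1 hy
    exact (mem_JJ.1 (mem_PP.1 (hcP p hp)).2.2.2).2.1 (mem_dom.2 ⟨y, hy⟩)
  · by_cases hn : j < n
    · -- the family of sections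
      have hgu : U KK.{u} (fun _ _ (a : ZFSet.{u}) => sc n (dom a)) := by
        refine (sc_u n).comp ?_
        apply_rules (transparency := .reducible) (maxDepth := 400) using is_poly
      have hsu : U KK.{u} (fun _ _ (a : ZFSet.{u}) => img a (fun p => sc n (dom p))) :=
        U.img U.id (hgu.comp U.id.snd)
      have hru : U KK.{u} (fun _ _ (a : ZFSet.{u}) => gr a (fun p => sc n (dom p))) :=
        U.gr U.id (hgu.comp U.id.snd)
      have hsM : img c (fun p => sc n (dom p)) ∈ M :=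
        clo1 hM (F := fun a => img a (fun p => sc n (dom p))) hsu hcM
      have hrM : gr c (fun p => sc n (dom p)) ∈ M :=
        clo1 hM (F := fun a => gr a (fun p => sc n (dom p))) hru hcM
      have h1 : CardLe M (img c (fun p => sc n (dom p))) (oz θ) := by
        refine K2 M ∅ hM c hcM _ hsM _ hrM θ hθM hcard ?_ ?_
        · intro x y z hy hz
          rw [(pair_mem_gr.1 hy).2, (pair_mem_gr.1 hz).2]
        · intro y hy
          obtain ⟨p, hp, rfl⟩ := mem_img.1 hy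
          exact ⟨p, hp, pair_mem_gr.2 ⟨hp, rfl⟩⟩
      have h2 := K4 M ∅ hM hW _ hsM _ hθM _ (ZZ_mem hM hL n) h1 (by
        intro x hx
        obtain ⟨p, hp, rfl⟩ := mem_img.1 hx
        exact (mem_JJ.1 (mem_PP.1 (hcP p hp)).2.2.2).2.2 n)
      have h3 : sc n (dom (⋃₀ c)) = (⋃₀ (img c (fun p => sc n (dom p))) : ZFSet.{u}) := by
        ext ξ
        rw [mem_sc, mem_dom, mem_sUnion]
        constructor
        · rintro ⟨y, hy⟩
          obtain ⟨p, hp, hy⟩ := mem_sUnion.1 hy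
          exact ⟨_, mem_img.2 ⟨p, hp, rfl⟩, mem_sc.2 (mem_dom.2 ⟨y, hy⟩)⟩
        · rintro ⟨w, hw, hξ⟩
          obtain ⟨p, hp, rfl⟩ := mem_img.1 hw
          obtain ⟨y, hy⟩ := mem_dom.1 (mem_sc.1 hξ)
          exact ⟨y, mem_sUnion.2 ⟨p, hp, hy⟩⟩
      rw [h3]
      have hβM : oz (bta L n) ∈ M := ozM_of_lt hM
        (bta_le hL.mono (hL.sl 0).2.1 n) (hL.sl n).1
      exact k2 _ (hM.sUnion _ hsM) _ (prod_mem hM hθM (ZZ_mem hM hL n)) _ (ZZ_mem hM hL n) h2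
        (absorb hM (hθ.le.trans (bta_ge hL.mono hn)) hβM hθM)
    · refine cardLe_empty hM fun ξ hξ => ?_
      obtain ⟨y, hy⟩ := mem_dom.1 (mem_sc.1 hξ)
      obtain ⟨p, hp, hy⟩ := mem_sUnion.1 hy
      have := (mem_PPhi.1 (hc hp)).2 _ hy
      rw [pfst_pair, pfst_pair, nz_mem] at this
      exact hn this
  · intro z hz
    obtain ⟨p, hp, hz⟩ := mem_sUnion.1 hz
    exact (mem_PPhi.1 (hc hp)).2 z hz

/-- **H4** -/
theorem st_H4 (K1 : ST_K1.{u}) (K2 : ST_K2.{u}) (K4 : ST_K4.{u}) (H2 : ST_H2.{u}) :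
    ST_H4.{u} := by
  intro M L r hM hW hL hr hrω j hj
  obtain ⟨hP, -, -, hk⟩ := H2 M L r hM hW hL hr hrω
  exact ⟨split K1 hM hL hP hj, lo_small K1 hM hL (fun n => (hk n).1) hP j,
    fun θ hθ => chain_closed K1 K2 K4 hM hW hL hθ⟩

end Pool.Agent.Helper50.SC
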